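import Mathlib
import Pool.Agent.H450R2.Iv.Table

/-!
Ivrii's conjecture for planar tables bounded by circular arcs and segments, and more generally
for the periodic orbits of an arbitrary table all of whose bounces lie on such boundary arcs.
-/

set_option autoImplicit false
open MeasureTheory

namespace Pool.Agent.Results.MP_ac23f1_an.CircularArcsSegments

open H450Iv ComplexConjugate

noncomputable section

/-- the mirror carrying a circular or straight arc -/
theorem mirror_exists (γ : ℝ → ℝ × ℝ) (hd : Differentiable ℝ γ)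
    (h : (∃ c : ℝ × ℝ, ∃ R : ℝ, 0 < R ∧ ∀ s ∈ Set.Icc (0 : ℝ) 1,
        ((γ s).1 - c.1) ^ 2 + ((γ s).2 - c.2) ^ 2 = R ^ 2) ∨
      (∃ a b d : ℝ, (a ≠ 0 ∨ b ≠ 0) ∧ ∀ s ∈ Set.Icc (0 : ℝ) 1,
        a * (γ s).1 + b * (γ s).2 = d)) :
    ∃ M : Mir, ∀ P V P' V' : ℝ × ℝ, ∀ s ∈ Set.Ioo (0 : ℝ) 1,
      (∃ t : ℝ, 0 < t ∧ P' = P + t • V) → P' = γ s → deriv γ s ≠ 0 →
      V.1 * (-(deriv γ s).2) + V.2 * (deriv γ s).1 ≠ 0 →
      V' = V - (2 * (V.1 * (-(deriv γ s).2) + V.2 * (deriv γ s).1) /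
                  ((deriv γ s).1 ^ 2 + (deriv γ s).2 ^ 2)) •
                  (-(deriv γ s).2, (deriv γ s).1) →
      Bounce M (toC P) (toC V) (toC P') (toC V') := by
  have hcomp : ∀ s, HasDerivAt (fun x => (γ x).1) (deriv γ s).1 s ∧
      HasDerivAt (fun x => (γ x).2) (deriv γ s).2 s := by
    intro s
    have h1 := (hd s).hasDerivAt
    exact ⟨h1.fst, h1.snd⟩
  rcases h with ⟨c, R, hR, hc⟩ | ⟨a, b, d, hab, hl⟩
  · refine ⟨Mir.circ (toC c) R, ?_⟩
    rintro P V P' V' s hs ⟨t, ht, hP⟩ hPs hτ hn hV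
    obtain ⟨h1, h2⟩ := hcomp s
    have hs' : s ∈ Set.Icc (0 : ℝ) 1 := ⟨hs.1.le, hs.2.le⟩
    -- the tangent is perpendicular to the radius
    have hperp : ((γ s).1 - c.1) * (deriv γ s).1 + ((γ s).2 - c.2) * (deriv γ s).2 = 0 := by
      have h3 : HasDerivAt (fun x => ((γ x).1 - c.1) ^ 2 + ((γ x).2 - c.2) ^ 2)
          (2 * ((γ s).1 - c.1) ^ (2 - 1) * (deriv γ s).1 +
            2 * ((γ s).2 - c.2) ^ (2 - 1) * (deriv γ s).2) s :=
        ((h1.sub_const c.1).pow 2).add ((h2.sub_const c.2).pow 2)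
      have h4 : HasDerivAt (fun _ : ℝ => R ^ 2) 0 s := hasDerivAt_const s _
      have h5 : (fun x => ((γ x).1 - c.1) ^ 2 + ((γ x).2 - c.2) ^ 2) =ᶠ[nhds s]
          (fun _ => R ^ 2) := by
        filter_upwards [Ioo_mem_nhds hs.1 hs.2] with x hx
        exact hc x ⟨hx.1.le, hx.2.le⟩
      have h6 := h3.unique (h4.congr_of_eventuallyEq h5)
      norm_num at h6
      linarith
    have hcs := hc s hs'
    set w : ℂ := toC (γ s) - toC c with hw
    have hwre : w.re = (γ s).1 - c.1 := by simp [hw, toC]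
    have hwim : w.im = (γ s).2 - c.2 := by simp [hw, toC]
    have hns : Complex.normSq w = R ^ 2 := by
      rw [Complex.normSq_apply, hwre, hwim]; linarith
    have hw0 : w ≠ 0 := by
      intro h0
      rw [h0, Complex.normSq_zero] at hns
      have := pow_pos hR 2
      linarith
    have hnorm : ‖w‖ = R := by
      have h7 : ‖w‖ ^ 2 = R ^ 2 := by rw [← Complex.normSq_eq_norm_sq, hns]
      nlinarith [norm_nonneg w]
    have hτ' : -(deriv γ s).2 ≠ 0 ∨ (deriv γ s).1 ≠ 0 := by
      by_contra hcon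
      push Not at hcon
      exact hτ (Prod.ext hcon.2 (by simpa using hcon.1))
    have hpar : -(deriv γ s).2 * w.im = (deriv γ s).1 * w.re := by
      rw [hwre, hwim]; linarith
    refine ⟨hR, t, ht, ?_, ?_, ?_, ?_⟩
    · rw [hP, toC_add, toC_smul]
    · rw [hPs]; exact hnorm
    · rw [hPs]
      change (w * conj (toC V)).re ≠ 0
      have h8 : (w * conj (toC V)).re = w.re * V.1 + w.im * V.2 := by
        simp [toC]
      rw [h8]
      intro h9
      apply hn
      have h10 : (V.1 * (-(deriv γ s).2) + V.2 * (deriv γ s).1) * (w.re ^ 2 + w.im ^ 2) = 0 := by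
        linear_combination (w.im * V.1 - w.re * V.2) * hpar +
          (-(deriv γ s).2 * w.re + (deriv γ s).1 * w.im) * h9
      rcases mul_eq_zero.1 h10 with h11 | h11
      · exact h11
      · exfalso
        rw [Complex.normSq_apply] at hns
        have := pow_pos hR 2
        nlinarith
    · have h12 := frefl V (deriv γ s) w hw0 hτ' hpar
      rw [hPs]
      unfold H450Iv.refl
      change _ = -(w ^ 2 / (R : ℂ) ^ 2 * conj (toC V))
      rw [hns] at h12
      push_cast at h12 ⊢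
      rw [← h12, hV]
  · refine ⟨Mir.line (toC (a, b)) d, ?_⟩
    rintro P V P' V' s hs ⟨t, ht, hP⟩ hPs hτ hn hV
    obtain ⟨h1, h2⟩ := hcomp s
    have hs' : s ∈ Set.Icc (0 : ℝ) 1 := ⟨hs.1.le, hs.2.le⟩
    have hperp : a * (deriv γ s).1 + b * (deriv γ s).2 = 0 := by
      have h3 : HasDerivAt (fun x => a * (γ x).1 + b * (γ x).2)
          (a * (deriv γ s).1 + b * (deriv γ s).2) s :=
        (h1.const_mul a).add (h2.const_mul b)
      have h4 : HasDerivAt (fun _ : ℝ => d) 0 s := hasDerivAt_const s _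
      have h5 : (fun x => a * (γ x).1 + b * (γ x).2) =ᶠ[nhds s] (fun _ => d) := by
        filter_upwards [Ioo_mem_nhds hs.1 hs.2] with x hx
        exact hl x ⟨hx.1.le, hx.2.le⟩
      exact h3.unique (h4.congr_of_eventuallyEq h5)
    have hw0 : toC (a, b) ≠ 0 := by
      intro h0
      have h3 := congrArg Complex.re h0
      have h4 := congrArg Complex.im h0
      simp only [toC, Complex.zero_re, Complex.zero_im] at h3 h4
      rcases hab with h | h
      · exact h h3
      · exact h h4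
    have hτ' : -(deriv γ s).2 ≠ 0 ∨ (deriv γ s).1 ≠ 0 := by
      by_contra hcon
      push Not at hcon
      exact hτ (Prod.ext hcon.2 (by simpa using hcon.1))
    refine ⟨hw0, t, ht, ?_, ?_, ?_⟩
    · rw [hP, toC_add, toC_smul]
    · rw [hPs]
      have := hl s hs'
      simp only [toC, Complex.mul_re, Complex.conj_re, Complex.conj_im]
      linarith
    · have hpar : -(deriv γ s).2 * (toC (a, b)).im = (deriv γ s).1 * (toC (a, b)).re := by
        simp only [toC]; linarith
      have h12 := frefl V (deriv γ s) (toC (a, b)) hw0 hτ' hpar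
      unfold lrefl
      rw [← h12, hV]

/-- For every planar billiard table bounded by finitely many smooth regular arcs (the hypotheses
of the posed question), the set of boundary points and directions (position on an arc, direction
angle) that return to themselves under the billiard map after bouncing only on arcs that lie in
circles or lines has Lebesgue measure zero. In particular, if all the arcs lie in circles or
lines, the set of all periodic points has measure zero. -/
theorem result :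
    ∀ (m : ℕ) (Y : Set (ℝ × ℝ)) (γ : Fin m → ℝ → ℝ × ℝ),
      IsCompact Y →
      closure (interior Y) = Y →
      (∀ i, ContDiff ℝ ((⊤ : ℕ∞) : WithTop ℕ∞) (γ i)) →
      (∀ i, ∀ s ∈ Set.Icc (0 : ℝ) 1, deriv (γ i) s ≠ 0) →
      (∀ i, Set.InjOn (γ i) (Set.Ioo (0 : ℝ) 1)) →
      (∀ i j, γ i 0 ∉ γ j '' Set.Ioo (0 : ℝ) 1 ∧ γ i 1 ∉ γ j '' Set.Ioo (0 : ℝ) 1) →
      (∀ i j, i ≠ j → Disjoint (γ i '' Set.Ioo (0 : ℝ) 1) (γ j '' Set.Ioo (0 : ℝ) 1)) →
      frontier Y = ⋃ i, γ i '' Set.Icc (0 : ℝ) 1 →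
      ∀ i, volume {q : ℝ × ℝ | q.1 ∈ Set.Ioo (0 : ℝ) 1 ∧
        ∃ n : ℕ, 0 < n ∧ ∃ P V : ℕ → ℝ × ℝ,
          P 0 = γ i q.1 ∧ V 0 = (Real.cos q.2, Real.sin q.2) ∧
          P n = P 0 ∧ V n = V 0 ∧
          ∀ k < n,
            (∃ t : ℝ, 0 < t ∧ P (k + 1) = P k + t • V k ∧
              ∀ τ ∈ Set.Ioo (0 : ℝ) t, P k + τ • V k ∈ interior Y) ∧
            (∃ j,
              ((∃ c : ℝ × ℝ, ∃ R : ℝ, 0 < R ∧ ∀ s ∈ Set.Icc (0 : ℝ) 1,
                  ((γ j s).1 - c.1) ^ 2 + ((γ j s).2 - c.2) ^ 2 = R ^ 2) ∨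
                (∃ a b d : ℝ, (a ≠ 0 ∨ b ≠ 0) ∧ ∀ s ∈ Set.Icc (0 : ℝ) 1,
                  a * (γ j s).1 + b * (γ j s).2 = d)) ∧
              ∃ s ∈ Set.Ioo (0 : ℝ) 1, P (k + 1) = γ j s ∧
              (V k).1 * (-(deriv (γ j) s).2) + (V k).2 * (deriv (γ j) s).1 ≠ 0 ∧
              V (k + 1) = V k -
                (2 * ((V k).1 * (-(deriv (γ j) s).2) + (V k).2 * (deriv (γ j) s).1) /
                  ((deriv (γ j) s).1 ^ 2 + (deriv (γ j) s).2 ^ 2)) •
                  (-(deriv (γ j) s).2, (deriv (γ j) s).1)) ∧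
            (∃ ε : ℝ, 0 < ε ∧
              ∀ τ ∈ Set.Ioo (0 : ℝ) ε, P (k + 1) + τ • V (k + 1) ∈ interior Y)} = 0 := by
  intro m Y γ _ _ hsm hreg hinj _ hdisj _ i
  classical
  have hdiff : ∀ j, Differentiable ℝ (γ j) := fun j => (hsm j).differentiable (by simp)
  set CF : Fin m → Prop := fun j =>
    ((∃ c : ℝ × ℝ, ∃ R : ℝ, 0 < R ∧ ∀ s ∈ Set.Icc (0 : ℝ) 1,
        ((γ j s).1 - c.1) ^ 2 + ((γ j s).2 - c.2) ^ 2 = R ^ 2) ∨
      (∃ a b d : ℝ, (a ≠ 0 ∨ b ≠ 0) ∧ ∀ s ∈ Set.Icc (0 : ℝ) 1,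
        a * (γ j s).1 + b * (γ j s).2 = d)) with hCF
  by_cases hi : CF i
  · -- the starting arc is circular or straight
    have hM : ∀ j : {j : Fin m // CF j}, _ := fun j => mirror_exists (γ j.1) (hdiff j.1) j.2
    choose M hM using hM
    have hmir : MirC (fun s => toC (γ i s)) := by
      rcases hi with ⟨c, R, hR, hc⟩ | ⟨a, b, d, hab, hl⟩
      · left
        refine ⟨toC c, R, hR, fun s hs => ?_⟩
        have h7 : ‖toC (γ i s) - toC c‖ ^ 2 = R ^ 2 := by
          rw [← Complex.normSq_eq_norm_sq, Complex.normSq_apply, ← hc s hs]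
          simp only [toC, Complex.sub_re, Complex.sub_im]
          ring
        nlinarith [norm_nonneg (toC (γ i s) - toC c)]
      · right
        refine ⟨toC (a, b), d, ?_, fun s hs => ?_⟩
        · intro h0
          have h3 := congrArg Complex.re h0
          have h4 := congrArg Complex.im h0
          simp only [toC, Complex.zero_re, Complex.zero_im] at h3 h4
          rcases hab with h | h
          · exact h h3
          · exact h h4
        · have := hl s hs
          simp only [toC, Complex.mul_re, Complex.conj_re, Complex.conj_im]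
          linarith
    have hinj' : Set.InjOn (fun s => toC (γ i s)) (Set.Ioo 0 1) :=
      fun x hx y hy hxy => hinj i hx hy (toC_inj hxy)
    refine measure_mono_null ?_ (bounce_null M (fun s => toC (γ i s))
      (toC_cont (hdiff i).continuous) hinj' hmir)
    rintro q ⟨hq, n, hn, P, V, hP0, hV0, hPn, hVn, h⟩
    refine ⟨hq, n, hn, fun k => toC (P k), fun k => toC (V k), ?_, ?_, ?_, ?_, ?_⟩
    · simp only [hP0]
    · simp only [hV0, zf, toC]
      rw [mul_comm, Complex.exp_mul_I]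
      apply Complex.ext
      · simp [Complex.cos_ofReal_re, Complex.sin_ofReal_im]
      · simp [Complex.cos_ofReal_im, Complex.sin_ofReal_re]
    · simp only [hPn]
    · simp only [hVn]
    · intro k hk
      obtain ⟨⟨t, ht, hP, _⟩, ⟨j, hj, s, hs, hPs, hns, hV⟩, _⟩ := h k hk
      exact ⟨⟨j, hj⟩, hM ⟨j, hj⟩ _ _ _ _ s hs ⟨t, ht, hP⟩ hPs
        (hreg j s ⟨hs.1.le, hs.2.le⟩) hns hV⟩
  · -- otherwise the set is empty
    refine measure_mono_null (t := ∅) ?_ measure_empty
    rintro q ⟨hq, n, hn, P, V, hP0, hV0, hPn, hVn, h⟩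
    obtain ⟨_, ⟨j, hj, s, hs, hPs, _, _⟩, _⟩ := h (n - 1) (by omega)
    have he : n - 1 + 1 = n := by omega
    rw [he, hPn, hP0] at hPs
    by_cases hij : i = j
    · subst hij; exact absurd hj hi
    · have := hdisj i j hij
      exact absurd (Set.disjoint_left.1 this ⟨q.1, hq, rfl⟩) (by
        push Not
        exact ⟨s, hs, hPs.symm⟩)

end

end Pool.Agent.Results.MP_ac23f1_an.CircularArcsSegments
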